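import Pool.Agent.H95.FJ.Defs

open MvPolynomial

namespace H32.FJ
open H95.FG H95.FI H95.FJ

theorem TT_apply {n s : ℕ} (T : Fin s → (Vn n →ₗ[ℂ] Vn n)) (c : Fin s → ℂ) (w : Vn n) :
    TT T c w = ∑ a, c a • T a w := by
  simp [TT, LinearMap.sum_apply]

theorem TT_mem_EE {n s : ℕ} (T : Fin s → (Vn n →ₗ[ℂ] Vn n)) (c : Fin s → ℂ) (w : Vn n) :
    TT T c w ∈ EE T w := by
  rw [TT_apply]
  exact Submodule.sum_mem _ fun a _ => Submodule.smul_mem _ _ (Submodule.subset_span ⟨a, rfl⟩)

/-- independent vectors modulo `I` in `S ≥ I` -/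
theorem card_quot {n q : ℕ} (I S : Submodule ℂ (Vn n)) (hIS : I ≤ S) (x : Fin q → Vn n)
    (hx : ∀ i, x i ∈ S) (hli : LinearIndependent ℂ (fun i => I.mkQ (x i))) :
    q + Module.finrank ℂ I ≤ Module.finrank ℂ S := by
  let f : S →ₗ[ℂ] (Vn n ⧸ I) := I.mkQ ∘ₗ S.subtype
  have h1 := LinearMap.finrank_range_add_finrank_ker f
  have h2 : Module.finrank ℂ (LinearMap.ker f) = Module.finrank ℂ I := by
    have : LinearMap.ker f = I.comap S.subtype := by
      rw [LinearMap.ker_comp, Submodule.ker_mkQ]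
    rw [this]
    exact (Submodule.comapSubtypeEquivOfLe hIS).finrank_eq
  have h3 : q ≤ Module.finrank ℂ (LinearMap.range f) := by
    have h4 := finrank_span_eq_card hli
    rw [Fintype.card_fin] at h4
    rw [← h4]
    apply Submodule.finrank_mono
    rw [Submodule.span_le]
    rintro _ ⟨i, rfl⟩
    exact ⟨⟨x i, hx i⟩, rfl⟩
  omega

theorem t_KEYA (hMXE : S_MXE) (hOPEN : H95.FJ.S_OPEN) (hLOC : S_LOC) (hGRE : S_GRE) (hSPAN : S_SPAN) :
    S_KEYA := by
  intro n r T h hT0 hh hz
  obtain ⟨z1, e, ρ, her, hE, hE1, hρ, hρ1⟩ := hMXE n r T h hh hz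
  set Tc := TT T (hv h z1) with hTc
  set K := LinearMap.ker Tc with hK
  set I := LinearMap.range Tc with hI
  have hIE : I ≤ EE T z1 := by
    rintro _ ⟨v, rfl⟩
    exact hOPEN n (r + 1) e T hE z1 hE1 (hv h z1) (hz z1) v
  have hρe : ρ ≤ e := by
    rw [← hρ1]
    exact (Submodule.finrank_mono hIE).trans (hE z1)
  obtain ⟨J, hJ1, hJ2, hJ3⟩ := hGRE n ρ (e - ρ) K I (Set.range fun u => TT T (hv h u))
    (by rintro _ ⟨u, rfl⟩; exact hρ u)
    (by
      intro T' hT' w hw hli
      have hwK : Tc w = 0 := hw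
      have hl : Module.finrank ℂ ↥(EE T w ⊔ I) ≤ e := hLOC n (r + 1) e T hE z1 hE1 (hv h z1) (hz z1) w hwK
      have hc := card_quot I (EE T w ⊔ I) le_sup_right (fun i => T' i w) (fun i => by
        obtain ⟨u, hu⟩ := hT' i
        rw [← hu]
        exact Submodule.mem_sup_left (TT_mem_EE T _ w)) hli
      have : Module.finrank ℂ I = ρ := hρ1
      omega)
  have hall : ∀ w ∈ K, ∀ c : Fin (r + 1) → ℂ, TT T c w ∈ J := by
    intro w hw c
    have hc : c ∈ Submodule.span ℂ (Set.range (hv h)) := by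
      rw [hSPAN n (r + 1) h hh]; trivial
    induction hc using Submodule.span_induction with
    | mem x hx =>
      obtain ⟨u, rfl⟩ := hx
      exact hJ3 _ ⟨u, rfl⟩ w hw
    | zero =>
      have : TT T (0 : Fin (r + 1) → ℂ) w = 0 := by simp [TT_apply]
      rw [this]; exact J.zero_mem
    | add x y _ _ hx hy =>
      have : TT T (x + y) w = TT T x w + TT T y w := by
        simp [TT_apply, add_smul, Finset.sum_add_distrib]
      rw [this]; exact J.add_mem hx hy
    | smul a x _ hx =>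
      have : TT T (a • x) w = a • TT T x w := by
        simp [TT_apply, mul_smul, Finset.smul_sum]
      rw [this]; exact J.smul_mem a hx
  have hKJ : K ≤ J := by
    intro w hw
    have h1 := hall w hw (Pi.single 0 1)
    have h2 : TT T (Pi.single 0 1) w = w := by
      rw [TT_apply, Finset.sum_eq_single 0]
      · rw [Pi.single_eq_same, one_smul, hT0]; rfl
      · intro a _ ha
        rw [Pi.single_eq_of_ne ha, zero_smul]
      · intro h; exact absurd (Finset.mem_univ _) h
    rwa [h2] at h1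
  have hdK : ρ + Module.finrank ℂ K = n := by
    have h1 := LinearMap.finrank_range_add_finrank_ker Tc
    rw [Module.finrank_fin_fun] at h1
    rw [← hρ1]; exact h1
  have hKle : Module.finrank ℂ K ≤ ρ + (e - ρ) * ρ := by
    refine (Submodule.finrank_mono hKJ).trans (hJ1.trans (le_of_eq ?_))
    have : Module.finrank ℂ I = ρ := hρ1
    rw [this]
  obtain ⟨k, rfl⟩ := Nat.exists_eq_add_of_le hρe
  rw [Nat.add_sub_cancel_left] at hKle
  have h5 : n ≤ ρ * (k + 2) := by nlinarith
  calc 4 * n ≤ 4 * (ρ * (k + 2)) := by omega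
    _ ≤ (ρ + k + 2) ^ 2 := by
        zify
        nlinarith [sq_nonneg ((ρ : ℤ) - (k + 2))]
    _ ≤ (r + 2) ^ 2 := Nat.pow_le_pow_left (by omega) 2

end H32.FJ
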